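import Mathlib
import Pool.Agent.Q287.SA.Defs
import Pool.Agent.Q287.SA.Final

open MeasureTheory Filter Topology

namespace Pool.Agent.Results.MP_9a1bf0_pr.LimitMeanBelowOne

open Pool.Agent.Q287.SA

/-- Question Q1 has a negative answer: if `2^d α_d` (even along a subsequence of dimensions)
converges in distribution to `X`, then `X ≥ 0` almost surely, `X` is integrable and
`E[X] ≤ 3/4 < 1`. Quantitatively `E[min(2^d α_d, M)] ≤ 3/4 + M / √(d-1)` for `d ≥ 2`, `M ≥ 0`.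
Here `d = n + 1`. -/
theorem result :
    (∀ n : ℕ, IsProbabilityMeasure (sphereLaw (n + 1)) ∧ Measurable (scaledAngle (n + 1)) ∧
      ∀ R : E (n + 1) ≃ₗᵢ[ℝ] E (n + 1), (sphereLaw (n + 1)).map R = sphereLaw (n + 1)) ∧
    (∀ n : ℕ, 1 ≤ n → ∀ M : ℝ, 0 ≤ M →
      ∫ U, min (scaledAngle (n + 1) U) M ∂iidSphere (n + 1) ≤ 3 / 4 + M / Real.sqrt n) ∧
    (∀ (Ω : Type) [MeasurableSpace Ω] (P : Measure Ω) [IsProbabilityMeasure P] (X : Ω → ℝ)
      (φ : ℕ → ℕ), StrictMono φ →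
      TendstoInDistribution (fun k => scaledAngle (φ k + 1)) atTop X
        (fun k => iidSphere (φ k + 1)) P →
      0 ≤ᵐ[P] X ∧ Integrable X P ∧ ∫ ω, X ω ∂P ≤ 3 / 4) ∧
    ¬ ∃ (Ω : Type) (_ : MeasurableSpace Ω) (P : Measure Ω) (_ : IsProbabilityMeasure P)
      (X : Ω → ℝ), 0 ≤ᵐ[P] X ∧ ∫ ω, X ω ∂P = 1 ∧
      TendstoInDistribution (fun n => scaledAngle (n + 1)) atTop X
        (fun n => iidSphere (n + 1)) P := by
  refine ⟨fun n => ⟨inferInstance, measurable_scaled n, fun R => (sphereLaw_rot _ R).map_eq⟩,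
    fun n hn M hM => main_bound hn hM,
    fun Ω _ P _ X φ hφ h => limit_mean P X φ hφ h, ?_⟩
  rintro ⟨Ω, _, P, _, X, _, hX1, h⟩
  have := (limit_mean P X id strictMono_id h).2.2
  rw [hX1] at this
  norm_num at this

end Pool.Agent.Results.MP_9a1bf0_pr.LimitMeanBelowOne
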